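import Pool.Agent.N933.GS.LocI
import Pool.Agent.N933.GS.LocT

/-!
# Gaussian disorder, `d ≥ 3`: eigenfunctions inside the band are not localized at the kinetic scale

`H_σ = Δ + σ ξ` on `ℤ^d`, `d ≥ 3`, `ξ` iid standard Gaussian, `0 < |σ| ≤ σ₀(d, κ, ε)`. With
probability at least `1 - 2 exp(-|σ|^{-1/269})` the following holds.

(A) On `ℤ^d`, for all sites `|a| ≤ exp(|σ|^{-1/269})`: every orthonormal family `u_1, …, u_n` of
`ℓ²`-eigenfunctions of `H_σ` with eigenvalues `|E_i| ≤ 2 d - κ` which are localized around `a` at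
the length `k |σ|^{-2-1/104}` (their masses outside of the ball of this radius around `a` are at
most `|σ|^{3d}`) has weight `∑_i |u_i(a)|² ≤ ε`.

(B) On all tori `(ℤ/L)^d` of side `|σ|^{-7} ≤ L ≤ exp(|σ|^{-1/269})`, for all orthonormal bases of
eigenvectors and all energy windows `I ⊂ [-(2d-κ), 2d-κ]` of length at least `16 |σ|^{2+1/52}`:
at least `c |I| L^d / 2` eigenvalues lie in `I`, and all the eigenvectors with eigenvalues in `I`,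
up to a fraction `ε`, have mass less than `ε` in each slab of thickness `c |σ|^{-2-1/104}`, in each
of the `d` directions.

The kinetic length (the mean free path) is `σ^{-2}`.
-/

set_option autoImplicit false

open scoped BigOperators ENNReal Topology
open MeasureTheory Filter ProbabilityTheory

namespace Pool.Agent.Results.MP_1906c1_mp.GaussianEigenfunctions

/-- `(Δ + σ ξ) u (x)`, where `Δ u (x) = ∑_{|y-x|=1} u(y)`. -/
noncomputable def H {d : ℕ} (σ : ℝ) (ξ : (Fin d → ℤ) → ℝ) (u : (Fin d → ℤ) → ℂ)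
    (x : Fin d → ℤ) : ℂ :=
  (∑ i : Fin d, (u (x + Pi.single i 1) + u (x - Pi.single i 1))) + ((σ * ξ x : ℝ) : ℂ) * u x

/-- `u_1, …, u_n` are orthonormal in `ℓ²(ℤ^d)`, and `H_σ u_i = E_i u_i` -/
structure IsFamily {d n : ℕ} (σ : ℝ) (ξ : (Fin d → ℤ) → ℝ) (E : Fin n → ℝ)
    (u : Fin n → (Fin d → ℤ) → ℂ) : Prop where
  sq : ∀ i, Summable fun x => ‖u i x‖ ^ 2
  orth : ∀ i j, ∑' x, (starRingEnd ℂ) (u i x) * u j x = if i = j then 1 else 0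
  eig : ∀ i x, H σ ξ (u i) x = (E i : ℂ) * u i x

/-- `(Δ + σ ξ) ψ (x)` on the torus `(ℤ/L)^d`, with the disorder of the box `{0, …, L-1}^d` -/
noncomputable def HT {d L : ℕ} [NeZero L] (σ : ℝ) (ξ : (Fin d → ℤ) → ℝ)
    (ψ : (Fin d → ZMod L) → ℂ) (x : Fin d → ZMod L) : ℂ :=
  (∑ i : Fin d, (ψ (x + Pi.single i 1) + ψ (x - Pi.single i 1))) +
    ((σ * ξ (fun i => ((x i).val : ℤ)) : ℝ) : ℂ) * ψ x

/-- `ψ` is an orthonormal basis of eigenvectors on the torus, with the eigenvalues `E` -/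
structure IsEigenbasis {d L : ℕ} [NeZero L] (σ : ℝ) (ξ : (Fin d → ℤ) → ℝ)
    (ψ : Fin (L ^ d) → (Fin d → ZMod L) → ℂ) (E : Fin (L ^ d) → ℝ) : Prop where
  orth : ∀ i j, ∑ x, (starRingEnd ℂ) (ψ i x) * ψ j x = if i = j then 1 else 0
  eig : ∀ j x, HT σ ξ (ψ j) x = (E j : ℂ) * ψ j x

/-- the property (A) -/
def PropA (d : ℕ) (κ ε k σ : ℝ) (ξ : (Fin d → ℤ) → ℝ) : Prop :=
  ∀ a : Fin d → ℤ, ‖a‖ ≤ Real.exp (|σ| ^ (-(1 / 269) : ℝ)) →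
    ∀ (n : ℕ) (E : Fin n → ℝ) (u : Fin n → (Fin d → ℤ) → ℂ), IsFamily σ ξ E u →
      (∀ i, |E i| ≤ 2 * d - κ) →
      (∀ i, ∑' x, (if ‖x - a‖ ≤ k * |σ| ^ (-(209 / 104) : ℝ) then 0 else ‖u i x‖ ^ 2) ≤
        |σ| ^ (3 * d)) → ∑ i, ‖u i a‖ ^ 2 ≤ ε

/-- the property (B) -/
def PropB (d : ℕ) (κ ε c σ : ℝ) (ξ : (Fin d → ℤ) → ℝ) : Prop :=
  ∀ (L : ℕ) [NeZero L], |σ| ^ (-7 : ℝ) ≤ L → (L : ℝ) ≤ Real.exp (|σ| ^ (-(1 / 269) : ℝ)) →
    ∀ E w : ℝ, 8 * |σ| ^ (105 / 52 : ℝ) ≤ w → |E| + w ≤ 2 * d - κ →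
    ∀ (ψ : Fin (L ^ d) → (Fin d → ZMod L) → ℂ) (Ej : Fin (L ^ d) → ℝ), IsEigenbasis σ ξ ψ Ej →
      c * w * (L : ℝ) ^ d ≤ ((Finset.univ.filter fun j => |Ej j - E| ≤ w).card : ℝ) ∧
      ∀ i : Fin d, (((Finset.univ.filter fun j => |Ej j - E| ≤ w ∧ ∃ y : ZMod L,
        ε ≤ ∑ x : Fin d → ZMod L, if |((x i - y).valMinAbs : ℝ)| ≤ c * |σ| ^ (-(209 / 104) : ℝ)
          then ‖ψ j x‖ ^ 2 else 0).card : ℝ)) ≤
        ε * ((Finset.univ.filter fun j => |Ej j - E| ≤ w).card : ℝ)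

theorem fam_of {d n : ℕ} {σ : ℝ} {ξ : (Fin d → ℤ) → ℝ} {E : Fin n → ℝ}
    {u : Fin n → (Fin d → ℤ) → ℂ} (h : IsFamily σ ξ E u) :
    N948.AL.EigFam (fun x => 2 * d + -(σ * ξ x)) (fun i => 2 * d - E i) u := by
  refine ⟨h.sq, h.orth, fun j x => ?_⟩
  have h1 := h.eig j x
  unfold H at h1
  unfold Pool.Agent.W788.LD.Spec.S
  push_cast at h1 ⊢
  linear_combination (-1 : ℂ) * h1

theorem eb_of {d L : ℕ} [NeZero L] {σ : ℝ} {ξ : (Fin d → ℤ) → ℝ}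
    {ψ : Fin (L ^ d) → (Fin d → ZMod L) → ℂ} {E : Fin (L ^ d) → ℝ}
    (h : IsEigenbasis σ ξ ψ E) :
    Pool.Agent.R988.Tor.EB (fun x => 2 * d + -(σ * ξ (Pool.Agent.R988.Tor.em x))) ψ
      (fun j => 2 * d - E j) := by
  refine ⟨h.orth, ?_, fun j x => ?_⟩
  · rw [Fintype.card_fin, Fintype.card_fun, ZMod.card, Fintype.card_fin]
  · have h1 := h.eig j x
    unfold HT at h1
    unfold Pool.Agent.R988.Tor.TS Pool.Agent.R988.Tor.em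
    push_cast at h1 ⊢
    linear_combination (-1 : ℂ) * h1

/-- the statement on `ℤ^d` for the potential `-W` and the coupling `s` -/
def QA (d : ℕ) (κ ε k s : ℝ) (W : (Fin d → ℤ) → ℝ) : Prop :=
  ∀ a : Fin d → ℤ, ‖a‖ ≤ Real.exp (s ^ (-(1 / 268) : ℝ)) →
    ∀ (n : ℕ) (E : Fin n → ℝ) (u : Fin n → (Fin d → ℤ) → ℂ),
    N948.AL.EigFam (fun x => 2 * d + W x) E u → (∀ j, N948.AL.Bk d κ (2 * d - E j)) →
    (∀ j, ∑' x, (if ‖x - a‖ ≤ k * s ^ (-(209 / 104) : ℝ) then 0 else ‖u j x‖ ^ 2) ≤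
      s ^ (3 * d)) → ∑ j, ‖u j a‖ ^ 2 ≤ ε

/-- the statement on the tori for the potential `-W` and the coupling `s` -/
def QB (d : ℕ) (κ ε c s : ℝ) (W : (Fin d → ℤ) → ℝ) : Prop :=
  ∀ (L : ℕ) [NeZero L], s ^ (-7 : ℝ) ≤ L → (L : ℝ) ≤ Real.exp (s ^ (-(1 / 269) : ℝ)) →
    ∀ e w : ℝ, 8 * s ^ (105 / 52 : ℝ) ≤ w →
    (∀ e' : ℝ, |e' - e| ≤ w → N933.AL.Bulk d κ (2 * d - e')) →
    ∀ (ψ : Fin (L ^ d) → (Fin d → ZMod L) → ℂ) (E : Fin (L ^ d) → ℝ),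
      Pool.Agent.R988.Tor.EB (fun x => 2 * d + W (Pool.Agent.R988.Tor.em x)) ψ E →
      c * w * (L : ℝ) ^ d ≤ ((Finset.univ.filter fun j => |E j - e| ≤ w).card : ℝ) ∧
      ∀ i : Fin d, (((Finset.univ.filter fun j => |E j - e| ≤ w ∧ ∃ y : ZMod L,
        ε ≤ ∑ x : Fin d → ZMod L, if |((x i - y).valMinAbs : ℝ)| ≤ c * s ^ (-(209 / 104) : ℝ)
          then ‖ψ j x‖ ^ 2 else 0).card : ℝ)) ≤
        ε * ((Finset.univ.filter fun j => |E j - e| ≤ w).card : ℝ)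

/-- **Theorem.** -/
theorem result (d : ℕ) (hd : 3 ≤ d) (κ : ℝ) (hκ : 0 < κ) (hκ1 : κ ≤ 1) (ε : ℝ) (hε : 0 < ε) :
    ∃ σ₀ k c : ℝ, 0 < σ₀ ∧ 0 < k ∧ 0 < c ∧ ∀ σ : ℝ, 0 < |σ| → |σ| ≤ σ₀ →
      ∃ G : Set ((Fin d → ℤ) → ℝ), MeasurableSet G ∧
        1 - 2 * Real.exp (-|σ| ^ (-(1 / 269) : ℝ)) ≤
          (Measure.infinitePi fun _ : Fin d → ℤ => gaussianReal 0 1).real G ∧
        ∀ ξ ∈ G, PropA d κ ε k σ ξ ∧ PropB d κ ε c σ ξ := by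
  obtain ⟨c0, k, hc0, hk, hA⟩ := N933.GS.infG d (by omega) κ hκ hκ1 ε hε
  obtain ⟨l0, c, hl0, hc, hB⟩ := N933.GS.allG d (by omega) κ hκ hκ1 ε hε
  have hd0 : (0 : ℝ) ≤ d := Nat.cast_nonneg d
  have hbulk : ∀ E : ℝ, |E| ≤ 2 * d - κ → N933.AL.Bulk d κ (2 * d - (2 * d - E)) := by
    intro E hE
    have e1 : 2 * (d : ℝ) - (2 * d - E) = E := by ring
    rw [e1]
    exact ⟨Or.inr ⟨hd, by linarith⟩, hE⟩
  refine ⟨min (min c0 l0) 1, k, c, lt_min (lt_min hc0 hl0) one_pos, hk, hc, ?_⟩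
  intro σ hσ hσ0
  have hσ1 : |σ| ≤ 1 := hσ0.trans (min_le_right _ _)
  have hσc : |σ| ≤ c0 := hσ0.trans ((min_le_left _ _).trans (min_le_left _ _))
  have hσl : |σ| ≤ l0 := hσ0.trans ((min_le_left _ _).trans (min_le_right _ _))
  obtain ⟨G1, hG1, hP1, hQ1⟩ := N933.GS.sgn (d := d) (QA d κ ε k)
    (fun s => 1 - Real.exp (-s ^ (-(1 / 268) : ℝ))) c0
    (fun s hs hs0 => by
      obtain ⟨G, hG, hP, hL⟩ := hA s hs hs0
      exact ⟨G, hG, hP, fun ξ hξ => hL ξ hξ⟩) (-σ) (by rwa [abs_neg]) (by rwa [abs_neg])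
  obtain ⟨G2, hG2, hP2, hQ2⟩ := N933.GS.sgn (d := d) (QB d κ ε c)
    (fun s => 1 - Real.exp (-s ^ (-(1 / 269) : ℝ))) l0
    (fun s hs hs0 => by
      obtain ⟨G, hG, hP, hL⟩ := hB s hs hs0
      refine ⟨G, hG, hP, fun ξ hξ => ?_⟩
      intro L hL0 hLl hLu e w hw hb ψ E hEB
      exact hL ξ hξ L hLl hLu e w hw hb ψ E hEB) (-σ) (by rwa [abs_neg]) (by rwa [abs_neg])
  rw [abs_neg] at hP1 hQ1 hP2 hQ2
  have hexp : Real.exp (-|σ| ^ (-(1 / 268) : ℝ)) ≤ Real.exp (-|σ| ^ (-(1 / 269) : ℝ)) := by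
    apply Real.exp_le_exp.2
    apply neg_le_neg
    exact Real.rpow_le_rpow_of_exponent_ge hσ hσ1 (by norm_num)
  refine ⟨G1 ∩ G2, hG1.inter hG2, ?_, fun ξ hξ => ⟨?_, ?_⟩⟩
  · have h1 := N933.GS.inter_prob _ G1 G2 hG1 hG2 _ _ hP1 hP2
    refine le_trans ?_ h1
    linarith
  · intro a ha n E u hu hE htail
    refine hQ1 ξ hξ.1 a (ha.trans (Real.exp_le_exp.2 ?_)) n (fun i => 2 * d - E i) u ?_
      (fun j => hbulk _ (hE j)) htail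
    · exact Real.rpow_le_rpow_of_exponent_ge hσ hσ1 (by norm_num)
    · have h2 := fam_of hu
      have e1 : (fun x => 2 * (d : ℝ) + -σ * ξ x) = fun x => 2 * (d : ℝ) + -(σ * ξ x) := by
        funext x
        ring
      rw [e1]
      exact h2
  · intro L hL0 hLl hLu E w hw hEw ψ Ej hEj
    have h2 := eb_of hEj
    have e1 : (fun x => 2 * (d : ℝ) + (fun x => -σ * ξ x) (Pool.Agent.R988.Tor.em x)) =
        fun x : Fin d → ZMod L => 2 * (d : ℝ) + -(σ * ξ (Pool.Agent.R988.Tor.em x)) := by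
      funext x
      ring
    have h3 := hQ2 ξ hξ.2 L hLl hLu (2 * d - E) w hw (fun e' he' => by
      have h4 : |2 * (d : ℝ) - e'| ≤ 2 * d - κ := by
        have h5 : 2 * (d : ℝ) - e' = E - (e' - (2 * d - E)) := by ring
        rw [h5]
        refine (abs_sub _ _).trans ?_
        linarith
      exact ⟨Or.inr ⟨hd, by linarith⟩, h4⟩) ψ (fun j => 2 * d - Ej j) (by rw [e1]; exact h2)
    have e2 : ∀ j, |2 * (d : ℝ) - Ej j - (2 * d - E)| = |Ej j - E| := by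
      intro j
      rw [← abs_neg]
      congr 1
      ring
    simp only [e2] at h3
    exact h3

end Pool.Agent.Results.MP_1906c1_mp.GaussianEigenfunctions
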