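import Pool.Agent.N933.GS.Kub
import Pool.Agent.N933.GS.Prof

/-!
# Gaussian disorder, `d ≥ 3`: the Kubo conductivity at every energy is the one of Drude and Boltzmann

`H_σ = Δ + σ ξ` on `ℤ^d`, `d ≥ 3`, `ξ` iid standard Gaussian, `0 < |σ| ≤ σ₀(d)`. Kubo's formula for
the conductivity at the energy `E` and the scale `η` (the complex frequency is `2 i η`), at the site
`a` and in the direction `i`, is, up to a numerical factor,

  `K(E, η) = η² ∑_x (x_i - a_i)² |G(x, a; E + iη)|²`,  `G(z) = (H_σ - z)⁻¹`.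

With probability at least `1 - exp(-|σ|^{-1/102})` the following holds simultaneously for all sites
`|a| ≤ exp(|σ|^{-1/102})`, all energies `|E| ≤ 3 d` (this contains the band `[-2d, 2d]`, with its
edges), all scales `|σ|^{2 + 1/68} ≤ η ≤ σ² / 2` and all directions:

  `σ² K(E, η) = 2 Im g₁(E) / (η / σ² + Im g₀(E)) + O(|σ|^{1/310})`.

This is the Drude formula (`2 σ² Im g₀(E)` is the rate of the collisions, and
`4 Im g₁(E) / Im g₀(E)` is the mean over the energy surface of the square of a component of the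
velocity), for one fixed realisation of the Gaussian disorder and without an average over the
energies.
-/

set_option autoImplicit false

open scoped BigOperators ENNReal Topology
open MeasureTheory Filter ProbabilityTheory

namespace Pool.Agent.Results.MP_1906c1_mp.GaussianKuboFormula

/-- `(Δ + σ ξ) u (x)`, where `Δ u (x) = ∑_{|y-x|=1} u(y)`. -/
noncomputable def H {d : ℕ} (σ : ℝ) (ξ : (Fin d → ℤ) → ℝ) (u : (Fin d → ℤ) → ℂ)
    (x : Fin d → ℤ) : ℂ :=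
  (∑ i : Fin d, (u (x + Pi.single i 1) + u (x - Pi.single i 1))) + ((σ * ξ x : ℝ) : ℂ) * u x

/-- `u = (H_σ - E - iη)⁻¹ δ_a` in `ℓ²(ℤ^d)` -/
structure IsGreen {d : ℕ} (σ : ℝ) (ξ : (Fin d → ℤ) → ℝ) (a : Fin d → ℤ) (E η : ℝ)
    (u : (Fin d → ℤ) → ℂ) : Prop where
  sq : Summable fun x => ‖u x‖ ^ 2
  eq : ∀ x, H σ ξ u x - ((E : ℂ) + (η : ℂ) * Complex.I) * u x = if x = a then 1 else 0

/-- `∫_0^1 exp(-is · 2 cos 2πx) dx` -/
noncomputable def p0 (s : ℝ) : ℂ :=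
  ∫ x in (0 : ℝ)..1, Complex.exp (Complex.I * ((-s * (2 * Real.cos (2 * Real.pi * x)) : ℝ) : ℂ))

/-- `∫_0^1 sin²(2πx) exp(-is · 2 cos 2πx) dx` -/
noncomputable def p1 (s : ℝ) : ℂ :=
  ∫ x in (0 : ℝ)..1, ((Real.sin (2 * Real.pi * x) ^ 2 : ℝ) : ℂ) *
    Complex.exp (Complex.I * ((-s * (2 * Real.cos (2 * Real.pi * x)) : ℝ) : ℂ))

/-- the boundary value `∫_{[0,1]^d} (∑ 2 cos 2πk_i - E - i0)⁻¹ dk` -/
noncomputable def g0 (d : ℕ) (E : ℝ) : ℂ :=
  Complex.I * ∫ s in Set.Ioi (0 : ℝ), p0 s ^ d * Complex.exp (Complex.I * (E : ℂ) * s)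

/-- the boundary value `∫_{[0,1]^d} sin²(2πk_1) (∑ 2 cos 2πk_i - E - i0)⁻¹ dk` -/
noncomputable def g1 (d : ℕ) (E : ℝ) : ℂ :=
  Complex.I * ∫ s in Set.Ioi (0 : ℝ), p1 s * p0 s ^ (d - 1) * Complex.exp (Complex.I * (E : ℂ) * s)

/-- `η² ∑_x (x_i - a_i)² |u(x)|²`; for `u = (H_σ - E - iη)⁻¹ δ_a` this is Kubo's formula -/
noncomputable def kubo {d : ℕ} (a : Fin d → ℤ) (i : Fin d) (η : ℝ) (u : (Fin d → ℤ) → ℂ) : ℝ :=
  η ^ 2 * ∑' x : Fin d → ℤ, ((x i : ℝ) - a i) ^ 2 * ‖u x‖ ^ 2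

/-- the Drude formula: `2 Im g₁(E) / (τ + Im g₀(E))` -/
noncomputable def drude (d : ℕ) (E τ : ℝ) : ℝ := 2 * (g1 d E).im / (τ + (g0 d E).im)

theorem g0_eq (d : ℕ) (E : ℝ) : g0 d E = Pool.Agent.TH794.QD.GF (Pool.Agent.TH794.QD.F0 d) E := rfl

theorem g1_eq (d : ℕ) (E : ℝ) : g1 d E = Pool.Agent.TH794.QD.GF (Pool.Agent.TH794.QD.F1 d) E := rfl

theorem drude_eq (d : ℕ) (E τ : ℝ) : drude d E τ = 2 * N933.GS.PG d τ E := by
  unfold drude N933.GS.PG Pool.Agent.TH794.QE.Pg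
  rw [g0_eq, g1_eq]
  ring

theorem green_iff {d : ℕ} (σ : ℝ) (ξ : (Fin d → ℤ) → ℝ) (a : Fin d → ℤ) (E η : ℝ)
    (u : (Fin d → ℤ) → ℂ) : IsGreen σ ξ a E η u ↔ N933.GS.Gr d (fun x => σ * ξ x) a E η u :=
  ⟨fun h => ⟨h.sq, h.eq⟩, fun h => ⟨h.sq, h.eq⟩⟩

/-- the statement for the potential `-W` and the coupling `s` -/
def QB (d : ℕ) (s : ℝ) (W : (Fin d → ℤ) → ℝ) : Prop :=
  ∀ a : Fin d → ℤ, ‖a‖ ≤ Real.exp (s ^ (-(1 / 102) : ℝ)) → ∀ E : ℝ, |E| ≤ 3 * d →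
    ∀ η : ℝ, s ^ (137 / 68 : ℝ) ≤ η → η ≤ s ^ 2 / 2 →
    ∀ u, N933.GS.Gr d (fun x => -W x) a E η u → ∀ i : Fin d,
      (Summable fun x : Fin d → ℤ => ((x i : ℝ) - a i) ^ 2 * ‖u x‖ ^ 2) ∧
      |s ^ 2 * kubo a i η u - drude d E (η / s ^ 2)| ≤ s ^ (1 / 310 : ℝ)

/-- **Theorem.** -/
theorem result (d : ℕ) (hd : 3 ≤ d) :
    (∀ κ : ℝ, 0 < κ → κ ≤ 1 → ∃ m : ℝ, 0 < m ∧ ∀ E : ℝ, |E| ≤ 2 * d - κ →
      m ≤ (g1 d E).im ∧ (g1 d E).im ≤ (g0 d E).im) ∧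
    ∃ σ₀ : ℝ, 0 < σ₀ ∧ ∀ σ : ℝ, 0 < |σ| → |σ| ≤ σ₀ →
      ∃ G : Set ((Fin d → ℤ) → ℝ), MeasurableSet G ∧
        1 - Real.exp (-|σ| ^ (-(1 / 102) : ℝ)) ≤
          (Measure.infinitePi fun _ : Fin d → ℤ => gaussianReal 0 1).real G ∧
        ∀ ξ ∈ G, ∀ a : Fin d → ℤ, ‖a‖ ≤ Real.exp (|σ| ^ (-(1 / 102) : ℝ)) →
          ∀ E : ℝ, |E| ≤ 3 * d →
          ∀ η : ℝ, |σ| ^ (137 / 68 : ℝ) ≤ η → η ≤ σ ^ 2 / 2 →
            (∃ u, IsGreen σ ξ a E η u) ∧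
            ∀ u, IsGreen σ ξ a E η u → ∀ i : Fin d,
              (Summable fun x : Fin d → ℤ => ((x i : ℝ) - a i) ^ 2 * ‖u x‖ ^ 2) ∧
              |σ ^ 2 * kubo a i η u - drude d E (η / σ ^ 2)| ≤ |σ| ^ (1 / 310 : ℝ) := by
  constructor
  · intro κ hκ hκ1
    obtain ⟨m, hm, hl⟩ := Pool.Agent.TH794.QE.low_all d (by omega) κ hκ hκ1
    refine ⟨m, hm, fun E hE => ?_⟩
    have hd0 : (0 : ℝ) ≤ d := Nat.cast_nonneg d
    have hE3 : |E| ≤ 3 * d := hE.trans (by linarith)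
    have hlim := Pool.Agent.TH794.QE.lim3 _ _
      (Pool.Agent.TH794.QD.hol1 Pool.Agent.W918.BK.Osc.osc d hd) E
    have l1 := (Complex.continuous_im.tendsto _).comp hlim
    have hmem : Set.Ioc (0 : ℝ) 1 ∈ 𝓝[>] (0 : ℝ) := Ioc_mem_nhdsGT one_pos
    have h1 : m ≤ (g1 d E).im := by
      rw [g1_eq]
      refine ge_of_tendsto l1 ?_
      filter_upwards [hmem] with t ht
      exact hl E t hE ht.1 ht.2
    refine ⟨h1, ?_⟩
    rw [g0_eq, g1_eq]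
    exact (Pool.Agent.TH794.QD.GF_im Pool.Agent.W918.BK.Osc.osc d hd (E : ℂ) (by simp)).2
  · obtain ⟨y0, hy0⟩ := N933.GS.kubG d hd
    obtain ⟨y1, hy1⟩ : ∃ y1, y1 = max y0 0 := ⟨_, rfl⟩
    have key : ∀ s : ℝ, 0 < s → s ≤ Real.exp (-y1) → ∃ G : Set ((Fin d → ℤ) → ℝ),
        MeasurableSet G ∧ 1 - Real.exp (-s ^ (-(1 / 102) : ℝ)) ≤
        (Measure.infinitePi fun _ : Fin d → ℤ => N933.GS.γ1).real G ∧
        ∀ ξ ∈ G, QB d s (fun x => s * ξ x) := by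
      intro s hs hs0
      obtain ⟨y, hy⟩ : ∃ y, y = Real.log (1 / s) := ⟨_, rfl⟩
      have hlogs : Real.log s = -y := by
        rw [hy, one_div, Real.log_inv, neg_neg]
      have hyy1 : y1 ≤ y := by
        have h1 := Real.log_le_log hs hs0
        rw [Real.log_exp, hlogs] at h1
        linarith
      have hyy0 : y0 ≤ y := le_trans (by rw [hy1]; exact le_max_left _ _) hyy1
      have hrp : ∀ p q : ℝ, q = -p → s ^ p = Real.exp (q * y) := by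
        intro p q hpq
        rw [Real.rpow_def_of_pos hs, hlogs, hpq]
        congr 1
        ring
      have e1 : s ^ (-(1 / 102) : ℝ) = Real.exp (1 / 102 * y) := hrp _ _ (by norm_num)
      have e2 : s ^ (137 / 68 : ℝ) = Real.exp (-(137 / 68) * y) := hrp _ _ (by norm_num)
      have e4 : s ^ (1 / 310 : ℝ) = Real.exp (-(1 / 310) * y) := hrp _ _ (by norm_num)
      have e5 : Real.exp (-1 * y) = s := by
        rw [neg_one_mul, ← hlogs, Real.exp_log hs]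
      obtain ⟨G, hG, hP, hL⟩ := hy0 y hyy0
      rw [e5] at hL
      rw [e1]
      refine ⟨G, hG, hP, fun ξ hξ => ?_⟩
      intro a ha E hE η hη1 hη2 u hu i
      rw [e1] at ha
      rw [e2] at hη1
      rw [e4]
      have hr := N933.GS.gr_rs hu
      simp only [neg_neg] at hr
      have eE : 2 * (d : ℝ) - (2 * d - E) = E := by ring
      obtain ⟨h5, h6⟩ := hL ξ hξ a ha (2 * d - E) (by rw [eE]; exact hE) η hη1 hη2 _ hr i
      unfold Pool.Agent.TH794.QE.QM at h6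
      simp only [norm_neg, RCLike.norm_conj] at h5 h6
      rw [eE] at h6
      refine ⟨h5, ?_⟩
      rw [drude_eq]
      unfold kubo
      refine le_trans (le_of_eq ?_) h6
      congr 1
      ring
    refine ⟨Real.exp (-y1), Real.exp_pos _, fun σ hσ hσ0 => ?_⟩
    obtain ⟨G, hG, hP, hQ⟩ := N933.GS.sgn (d := d) (QB d)
      (fun s => 1 - Real.exp (-s ^ (-(1 / 102) : ℝ))) _ key (-σ) (by rwa [abs_neg])
      (by rwa [abs_neg])
    rw [abs_neg] at hP hQ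
    refine ⟨G, hG, hP, fun ξ hξ a ha E hE η hη1 hη2 => ?_⟩
    have hη0 : 0 < η := lt_of_lt_of_le (Real.rpow_pos_of_pos hσ _) hη1
    have hσ1 : |σ| ≤ 1 := by
      refine hσ0.trans (Real.exp_le_one_iff.2 ?_)
      have : 0 ≤ y1 := by rw [hy1]; exact le_max_right _ _
      linarith
    have hη3 : η ≤ 1 := by
      have h1 : σ ^ 2 ≤ 1 := by
        rw [← sq_abs]
        exact pow_le_one₀ (abs_nonneg _) hσ1
      linarith
    constructor
    · obtain ⟨u, hu⟩ := N933.GS.gr_exists (d := d) (by omega) (fun x => σ * ξ x) a E η hη0 hη3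
      exact ⟨u, (green_iff σ ξ a E η u).2 hu⟩
    · intro u hu i
      have h7 := hQ ξ hξ a ha E hE η hη1 (by rw [sq_abs]; exact hη2) u (by
        have h8 := (green_iff σ ξ a E η u).1 hu
        have e9 : (fun x => -(-σ * ξ x)) = fun x => σ * ξ x := by
          funext x
          ring
        rw [e9]
        exact h8) i
      rw [sq_abs] at h7
      exact h7

end Pool.Agent.Results.MP_1906c1_mp.GaussianKuboFormula
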