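import Pool.Agent.N933.GS.FinA

/-!
# Gaussian disorder, `d ≥ 3`: spectral measures at weak disorder far below the kinetic scale

`H_σ = Δ + σ ξ` on `ℤ^d`, `d ≥ 3`, `ξ` iid standard Gaussian, `0 < |σ| ≤ σ₀(d)`. With probability
at least `1 - exp(-|σ|^{-1/103})` the following holds for the box `Λ` of radius
`exp(|σ|^{-1/102})`, at all energies `E` (no restriction to the bulk of the band):
* every spectral measure `m` of a vector `g` supported in `Λ` satisfies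
  `m [E - r, E + r] ≤ K log(1/|σ|) r ‖g‖₁²` for all `r ≥ |σ|^{21/10}`;
* every `ℓ²`-eigenfunction `u`, at whatever eigenvalue, satisfies
  `|u(a)|² ≤ K log(1/|σ|) |σ|^{21/10} ‖u‖²` at all sites `a` of `Λ`;
* the spectral measure `m` of `δ_a`, `a ∈ Λ`, and the spectral measure `m₀` of `δ_a` for `Δ`
  satisfy `|m [E - r, E + r] - m₀ [E - r, E + r]| ≤ |σ|^{1/210} r` for all `r ≥ |σ|^{207/100}`.
The kinetic scale is `σ²`, the scales above are much smaller.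
-/

set_option autoImplicit false

open scoped BigOperators ComplexConjugate
open MeasureTheory ProbabilityTheory

namespace Pool.Agent.Results.MP_1906c1_mp.GaussianLocalLaw

/-- `(Δ + σ ξ) u (x)`, where `Δ u (x) = ∑_{|y-x|=1} u(y)`. -/
noncomputable def H {d : ℕ} (σ : ℝ) (ξ : (Fin d → ℤ) → ℝ) (u : (Fin d → ℤ) → ℂ)
    (x : Fin d → ℤ) : ℂ :=
  (∑ i : Fin d, (u (x + Pi.single i 1) + u (x - Pi.single i 1))) + ((σ * ξ x : ℝ) : ℂ) * u x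

/-- `m` is the spectral measure of the vector `g`: a finite measure whose Borel transform
`∫ (E - z)⁻¹ dm(E)` is `⟨g, (H_σ - z)⁻¹ g⟩` for all non-real `z` -/
def IsSpectralMeasure {d : ℕ} (σ : ℝ) (ξ : (Fin d → ℤ) → ℝ) (g : (Fin d → ℤ) → ℂ)
    (m : Measure ℝ) : Prop :=
  IsFiniteMeasure m ∧ ∀ z : ℂ, z.im ≠ 0 → ∃ u : (Fin d → ℤ) → ℂ,
    (Summable fun x => ‖u x‖ ^ 2) ∧ (∀ x, H σ ξ u x - z * u x = g x) ∧
    ∫ E : ℝ, ((E : ℂ) - z)⁻¹ ∂m = ∑' x, conj (g x) * u x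

theorem spm_of {d : ℕ} (σ : ℝ) (ξ : (Fin d → ℤ) → ℝ) (g : (Fin d → ℤ) → ℂ) (m : Measure ℝ)
    (h : IsSpectralMeasure σ ξ g m) : N933.GS.Spm d (fun x => σ * ξ x) g m := h.2

/-- **Theorem.** `H 0 ξ` is the free operator `Δ`. -/
theorem result (d : ℕ) (hd : 3 ≤ d) : ∃ σ₀ K : ℝ, 0 < σ₀ ∧ 0 < K ∧
    ∀ σ : ℝ, 0 < |σ| → |σ| ≤ σ₀ →
    ∃ G : Set ((Fin d → ℤ) → ℝ), MeasurableSet G ∧
      1 - Real.exp (-|σ| ^ (-(1 / 103) : ℝ)) ≤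
        (Measure.infinitePi fun _ : Fin d → ℤ => gaussianReal 0 1).real G ∧
      ∀ ξ ∈ G,
        (∀ (g : (Fin d → ℤ) → ℂ) (B : Finset (Fin d → ℤ)),
          (∀ a ∈ B, ‖a‖ ≤ Real.exp (|σ| ^ (-(1 / 102) : ℝ))) → (∀ a, a ∉ B → g a = 0) →
          ∀ m : Measure ℝ, IsSpectralMeasure σ ξ g m → ∀ E r : ℝ, |σ| ^ (21 / 10 : ℝ) ≤ r →
            m.real (Set.Icc (E - r) (E + r)) ≤
              K * Real.log (1 / |σ|) * r * (∑ a ∈ B, ‖g a‖) ^ 2) ∧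
        (∀ (E : ℝ) (u : (Fin d → ℤ) → ℂ), (Summable fun x => ‖u x‖ ^ 2) →
          (∀ x, H σ ξ u x = (E : ℂ) * u x) →
          ∀ a : Fin d → ℤ, ‖a‖ ≤ Real.exp (|σ| ^ (-(1 / 102) : ℝ)) →
            ‖u a‖ ^ 2 ≤ K * Real.log (1 / |σ|) * |σ| ^ (21 / 10 : ℝ) * ∑' x, ‖u x‖ ^ 2) ∧
        ∀ a : Fin d → ℤ, ‖a‖ ≤ Real.exp (|σ| ^ (-(1 / 102) : ℝ)) →
          ∀ m m₀ : Measure ℝ, IsSpectralMeasure σ ξ (Pi.single a 1) m →
            IsSpectralMeasure 0 ξ (Pi.single a 1) m₀ →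
            ∀ E r : ℝ, |σ| ^ (207 / 100 : ℝ) ≤ r →
              |m.real (Set.Icc (E - r) (E + r)) - m₀.real (Set.Icc (E - r) (E + r))| ≤
                |σ| ^ (1 / 210 : ℝ) * r := by
  obtain ⟨σ₀, K, h0, hK, h⟩ := N933.GS.finA d hd
  refine ⟨σ₀, K, h0, hK, fun σ hσ hσ0 => ?_⟩
  obtain ⟨G, hG, hP, hQ⟩ := N933.GS.sgn (d := d) (N933.GS.QA d K)
    (fun s => 1 - Real.exp (-s ^ (-(1 / 103) : ℝ))) σ₀ h σ hσ hσ0
  refine ⟨G, hG, hP, fun ξ hξ => ?_⟩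
  obtain ⟨q1, q2, q3⟩ := hQ ξ hξ
  refine ⟨?_, ?_, ?_⟩
  · intro g B hB hgB m hm E r hr
    exact q1 g B hB hgB m hm.1 (spm_of σ ξ g m hm) E r hr
  · intro E u hu heq a ha
    exact q2 E u hu heq a ha
  · intro a ha m m₀ hm hm₀ E r hr
    refine q3 a ha m m₀ hm.1 hm₀.1 (spm_of σ ξ _ m hm) ?_ E r hr
    have h1 := spm_of 0 ξ _ m₀ hm₀
    simp only [zero_mul] at h1
    exact h1

end Pool.Agent.Results.MP_1906c1_mp.GaussianLocalLaw
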